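import Mathlib

/-! # Projectional generators: definitions and the abstract positive part

`T` is a partially ordered set in which any two elements have a meet, the sets below the elements are chains and
which is well-founded. `X = ℓ_1(T)`, `D` = the functionals whose value at the unit vector `e s` depends only on
`{q ∈ S | s ≤ q}` for some countable `S ⊆ T` (and is `0` if this set is empty).
-/

set_option autoImplicit false

open Set Topology Filter

namespace Pool.Agent.T2H72.PG

section defs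

variable {X : Type} [NormedAddCommGroup X] [NormedSpace ℝ X]

/-- the subspace `D ⊆ X*` is norming: `c * ‖x‖ ≤ sup {|f x| : f ∈ D, ‖f‖ ≤ 1}` for some `c > 0` -/
def IsNorming (D : Submodule ℝ (X →L[ℝ] ℝ)) : Prop :=
  ∃ c : ℝ, 0 < c ∧ ∀ x : X, c * ‖x‖ ≤ sSup {r : ℝ | ∃ f ∈ D, ‖f‖ ≤ 1 ∧ r = |f x|}

/-- `f` is in the weak-star closure of `A ⊆ X*` -/
def InWeakStarClosure (A : Set (X →L[ℝ] ℝ)) (f : X →L[ℝ] ℝ) : Prop :=
  StrongDual.toWeakDual f ∈ closure (StrongDual.toWeakDual '' A)

/-- `(D, Φ)` is a projectional generator on `X`: `D` is norming, the sets `Φ f`, `f ∈ D`, are countable, and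
`Φ(A)^⊥ ∩ (weak-star closure of A) = {0}` for every `A ⊆ D` whose norm closure is a linear subspace. -/
def IsProjectionalGenerator (D : Submodule ℝ (X →L[ℝ] ℝ)) (Φ : (X →L[ℝ] ℝ) → Set X) : Prop :=
  IsNorming D ∧ (∀ f ∈ D, (Φ f).Countable) ∧
    ∀ A : Set (X →L[ℝ] ℝ), A ⊆ D → (∃ L : Submodule ℝ (X →L[ℝ] ℝ), closure A = L) →
      ∀ f : X →L[ℝ] ℝ, InWeakStarClosure A f → (∀ g ∈ A, ∀ x ∈ Φ g, f x = 0) → f = 0

/-- the strengthened condition: `Φ(M)^⊥ ∩ (weak-star closed linear span of M) = {0}` for every `M ⊆ D` -/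
def IsStrengthened (D : Submodule ℝ (X →L[ℝ] ℝ)) (Φ : (X →L[ℝ] ℝ) → Set X) : Prop :=
  ∀ M : Set (X →L[ℝ] ℝ), M ⊆ D → ∀ f : X →L[ℝ] ℝ,
    InWeakStarClosure (Submodule.span ℝ M : Set (X →L[ℝ] ℝ)) f →
      (∀ g ∈ M, ∀ x ∈ Φ g, f x = 0) → f = 0

theorem inWeakStarClosure_mono {A B : Set (X →L[ℝ] ℝ)} (h : A ⊆ B) {f : X →L[ℝ] ℝ}
    (hf : InWeakStarClosure A f) : InWeakStarClosure B f :=
  closure_mono (image_mono h) hf

/-- a weak-star closed linear condition passes to the weak-star closure -/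
theorem eq_of_closure {A : Set (X →L[ℝ] ℝ)} {f : X →L[ℝ] ℝ} (hf : InWeakStarClosure A f)
    {x y : X} (h : ∀ g ∈ A, g x = g y) : f x = f y := by
  have hc : IsClosed {g : WeakDual ℝ X | g x = g y} :=
    isClosed_eq (WeakDual.eval_continuous x) (WeakDual.eval_continuous y)
  have hsub : StrongDual.toWeakDual '' A ⊆ {g : WeakDual ℝ X | g x = g y} := by
    rintro _ ⟨g, hg, rfl⟩
    exact h g hg
  exact closure_minimal hsub hc hf

/-- a pointwise limit of a sequence from `A` is in the weak-star closure -/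
theorem closure_of_tendsto {A : Set (X →L[ℝ] ℝ)} {f : X →L[ℝ] ℝ} (u : ℕ → X →L[ℝ] ℝ)
    (hu : ∀ n, u n ∈ A) (h : ∀ x, Tendsto (fun n => u n x) atTop (𝓝 (f x))) :
    InWeakStarClosure A f := by
  refine mem_closure_of_tendsto (f := fun n => StrongDual.toWeakDual (u n)) (b := atTop) ?_
    (Eventually.of_forall fun n => ⟨_, hu n, rfl⟩)
  rw [tendsto_iff_forall_eval_tendsto_topDualPairing]
  intro x
  exact h x

end defs

/-! ### the space `ℓ_1(T)` -/

/-- `ℓ_1(T)` -/
abbrev L1 (T : Type) : Type := lp (fun _ : T => ℝ) 1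

section l1

variable {T : Type}

lemma summable (x : L1 T) : Summable fun i => |x i| := by
  have h : Memℓp (x : T → ℝ) 1 := lp.memℓp x
  rw [memℓp_gen_iff (by simp)] at h
  simpa using h

lemma norm_eq (x : L1 T) : ‖x‖ = ∑' i, |x i| := by
  rw [lp.norm_eq_tsum_rpow (by simp)]
  simp

open Classical in
/-- the unit vectors -/
noncomputable def e (i : T) : L1 T := lp.single (E := fun _ : T => ℝ) 1 i (1 : ℝ)

open Classical in
lemma e_apply (i k : T) : e i k = if k = i then 1 else 0 := by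
  unfold e
  rw [lp.single_apply]
  by_cases h : k = i
  · subst h; simp
  · simp [h]

open Classical in
lemma norm_e (i : T) : ‖e i‖ = 1 := by
  unfold e
  rw [lp.norm_single (by norm_num), norm_one]

lemma hasSum_apply (f : L1 T →L[ℝ] ℝ) (x : L1 T) : HasSum (fun i => x i * f (e i)) (f x) := by
  classical
  have h1 := lp.hasSum_single (E := fun _ : T => ℝ) (p := 1) (by norm_num) x
  have h2 : (fun i => x i • e i) = fun i => lp.single (E := fun _ : T => ℝ) 1 i (x i) := by
    funext i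
    unfold e
    rw [← lp.single_smul, smul_eq_mul, mul_one]
  rw [← h2] at h1
  have h := h1.mapL f
  simp only [map_smul, smul_eq_mul] at h
  exact h

lemma apply_eq (f : L1 T →L[ℝ] ℝ) (x : L1 T) : f x = ∑' i, x i * f (e i) :=
  (hasSum_apply f x).tsum_eq.symm

lemma ext_e {f g : L1 T →L[ℝ] ℝ} (h : ∀ i, f (e i) = g (e i)) : f = g := by
  ext x
  rw [apply_eq, apply_eq]
  simp only [h]

lemma summable_mul (x : L1 T) {φ : T → ℝ} {C : ℝ} (h : ∀ i, |φ i| ≤ C) :
    Summable fun i => ‖x i * φ i‖ := by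
  refine Summable.of_nonneg_of_le (fun i => norm_nonneg _) (fun i => ?_) ((summable x).mul_left C)
  rw [norm_mul, Real.norm_eq_abs, Real.norm_eq_abs, mul_comm]
  exact mul_le_mul_of_nonneg_right (h i) (abs_nonneg _)

/-- the functional on `ℓ_1(T)` given by a function bounded by `1` -/
noncomputable def ofFun (φ : T → ℝ) (h : ∀ i, |φ i| ≤ 1) : L1 T →L[ℝ] ℝ :=
  LinearMap.mkContinuous
    { toFun := fun x => ∑' i, x i * φ i
      map_add' := fun x y => by
        rw [← (summable_mul x h).of_norm.tsum_add (summable_mul y h).of_norm]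
        congr 1
        funext i
        show (x i + y i) * φ i = _
        ring
      map_smul' := fun c x => by
        rw [RingHom.id_apply, smul_eq_mul, ← tsum_mul_left]
        congr 1
        funext i
        show (c * x i) * φ i = _
        ring } 1 (fun x => by
    rw [one_mul, norm_eq]
    refine (norm_tsum_le_tsum_norm (summable_mul x h)).trans
      ((summable_mul x h).tsum_le_tsum (fun i => ?_) (summable x))
    rw [norm_mul, Real.norm_eq_abs, Real.norm_eq_abs]
    exact mul_le_of_le_one_right (abs_nonneg _) (h i))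

lemma ofFun_apply (φ : T → ℝ) (h : ∀ i, |φ i| ≤ 1) (x : L1 T) :
    ofFun φ h x = ∑' i, x i * φ i := rfl

lemma ofFun_e (φ : T → ℝ) (h : ∀ i, |φ i| ≤ 1) (i : T) : ofFun φ h (e i) = φ i := by
  classical
  rw [ofFun_apply, tsum_eq_single i]
  · rw [e_apply, if_pos rfl, one_mul]
  · intro k hk
    rw [e_apply, if_neg hk, zero_mul]

lemma norm_ofFun_le (φ : T → ℝ) (h : ∀ i, |φ i| ≤ 1) : ‖ofFun φ h‖ ≤ 1 :=
  LinearMap.mkContinuous_norm_le _ zero_le_one _

lemma abs_apply_e_le (f : L1 T →L[ℝ] ℝ) (i : T) : |f (e i)| ≤ ‖f‖ := by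
  have := f.le_opNorm (e i)
  rwa [norm_e, mul_one, Real.norm_eq_abs] at this

end l1

end Pool.Agent.T2H72.PG
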