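import Pool.Agent.T2H72.PG.Defs

/-! # The projectional generator on `ℓ_1(T)`, `T` a tree with meets -/

set_option autoImplicit false

open Set Topology Filter

namespace Pool.Agent.T2H72.PG

variable {T : Type} [SemilatticeInf T] [WellFoundedLT T]

/-- the value of `f` at `e s` depends only on `{q ∈ S | s ≤ q}`, and is `0` if this set is empty -/
def Supp (S : Set T) (f : L1 T →L[ℝ] ℝ) : Prop :=
  (∀ s s' : T, (∀ q ∈ S, s ≤ q ↔ s' ≤ q) → f (e s) = f (e s')) ∧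
    ∀ s : T, (∀ q ∈ S, ¬ s ≤ q) → f (e s) = 0

omit [WellFoundedLT T] in
lemma Supp.mono {S S' : Set T} (h : S ⊆ S') {f : L1 T →L[ℝ] ℝ} (hf : Supp S f) : Supp S' f :=
  ⟨fun s s' hs => hf.1 s s' fun q hq => hs q (h hq), fun s hs => hf.2 s fun q hq => hs q (h hq)⟩

/-- the functionals with a countable `S` -/
def Dom (T : Type) [SemilatticeInf T] : Submodule ℝ (L1 T →L[ℝ] ℝ) where
  carrier := {f | ∃ S : Set T, S.Countable ∧ Supp S f}
  zero_mem' := ⟨∅, countable_empty, fun _ _ _ => rfl, fun _ _ => rfl⟩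
  add_mem' := by
    rintro f g ⟨S, hS, hf⟩ ⟨S', hS', hg⟩
    have hf' := hf.mono (subset_union_left (s := S) (t := S'))
    have hg' := hg.mono (subset_union_right (s := S) (t := S'))
    refine ⟨S ∪ S', hS.union hS', fun s s' h => ?_, fun s h => ?_⟩
    · show f (e s) + g (e s) = f (e s') + g (e s')
      rw [hf'.1 s s' h, hg'.1 s s' h]
    · show f (e s) + g (e s) = 0
      rw [hf'.2 s h, hg'.2 s h, add_zero]
  smul_mem' := by
    rintro c f ⟨S, hS, hf⟩
    refine ⟨S, hS, fun s s' h => ?_, fun s h => ?_⟩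
    · show c * f (e s) = c * f (e s')
      rw [hf.1 s s' h]
    · show c * f (e s) = 0
      rw [hf.2 s h, mul_zero]

omit [WellFoundedLT T] in
/-- `Dom T` contains the weak-star closures of its countable subsets -/
theorem dom_closed {C : Set (L1 T →L[ℝ] ℝ)} (hC : C.Countable) (hCD : C ⊆ Dom T)
    {f : L1 T →L[ℝ] ℝ} (hf : InWeakStarClosure C f) : f ∈ Dom T := by
  classical
  choose! S hS hSf using (fun g (hg : g ∈ C) => hCD hg)
  refine ⟨⋃ g ∈ C, S g, hC.biUnion hS, fun s s' h => ?_, fun s h => ?_⟩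
  · refine eq_of_closure hf fun g hg => ((hSf g hg).mono ?_).1 s s' h
    exact subset_biUnion_of_mem hg
  · have : f (e s) = f 0 := eq_of_closure hf fun g hg => by
      rw [map_zero]
      exact ((hSf g hg).mono (subset_biUnion_of_mem hg)).2 s h
    rw [this, map_zero]

omit [WellFoundedLT T] in
/-- the functionals of norm at most `1` in `Dom T` give the norm of `ℓ_1(T)` -/
theorem norming : IsNorming (Dom T) := by
  classical
  refine ⟨1, one_pos, fun x => ?_⟩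
  rw [one_mul]
  obtain ⟨S, hS⟩ : ∃ S : Set T, S = {s | x s ≠ 0} := ⟨_, rfl⟩
  have hSc : S.Countable := by
    have h1 : Summable fun i => x i := (summable x).of_abs
    have := h1.countable_support
    rw [hS]
    exact this
  -- the least element of `{q ∈ S | s ≤ q}`, if there is one
  obtain ⟨F, hF⟩ : ∃ F : Set T → ℝ, ∀ (B : Set T), |F B| ≤ 1 ∧
      (∀ s ∈ B, (∀ q ∈ B, s ≤ q) → F B = SignType.sign (x s)) ∧ (B = ∅ → F B = 0) := by
    refine ⟨fun B => if h : ∃ s ∈ B, ∀ q ∈ B, s ≤ q then SignType.sign (x h.choose) else 0,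
      fun B => ⟨?_, ?_, ?_⟩⟩
    · by_cases h : ∃ s ∈ B, ∀ q ∈ B, s ≤ q
      · simp only [h, dif_pos]
        rcases lt_trichotomy (x h.choose) 0 with h1 | h1 | h1 <;> simp [h1]
      · simp only [h, dif_neg, not_false_eq_true, abs_zero, zero_le_one]
    · intro s hs hsq
      have h : ∃ s ∈ B, ∀ q ∈ B, s ≤ q := ⟨s, hs, hsq⟩
      simp only [h, dif_pos]
      have h2 := h.choose_spec
      rw [le_antisymm (h2.2 s hs) (hsq _ h2.1)]
    · rintro rfl
      simp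
  obtain ⟨f, hf⟩ : ∃ f, f = ofFun (fun s => F {q ∈ S | s ≤ q}) (fun s => (hF _).1) := ⟨_, rfl⟩
  have hfe : ∀ s, f (e s) = F {q ∈ S | s ≤ q} := by
    intro s; rw [hf, ofFun_e]
  have hfD : f ∈ Dom T := by
    refine ⟨S, hSc, fun s s' h => ?_, fun s h => ?_⟩
    · rw [hfe, hfe]
      congr 1
      ext q
      constructor
      · rintro ⟨h1, h2⟩; exact ⟨h1, (h q h1).1 h2⟩
      · rintro ⟨h1, h2⟩; exact ⟨h1, (h q h1).2 h2⟩
    · rw [hfe]
      apply (hF _).2.2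
      ext q
      constructor
      · rintro ⟨h1, h2⟩; exact absurd h2 (h q h1)
      · intro h1; exact absurd h1 (notMem_empty q)
  have hf1 : ‖f‖ ≤ 1 := by rw [hf]; exact norm_ofFun_le _ _
  have hfx : f x = ‖x‖ := by
    rw [apply_eq, norm_eq]
    congr 1
    funext s
    by_cases hs : x s = 0
    · rw [hs]; simp
    · have h0 : F {q ∈ S | s ≤ q} = SignType.sign (x s) :=
        (hF {q ∈ S | s ≤ q}).2.1 s ⟨by rw [hS]; exact hs, le_rfl⟩ (fun q hq => hq.2)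
      rw [hfe, h0]
      rcases lt_or_gt_of_ne hs with h1 | h1
      · rw [abs_of_neg h1, sign_neg h1]; simp
      · rw [abs_of_pos h1, sign_pos h1]; simp
  apply le_csSup
  · refine ⟨‖x‖, ?_⟩
    rintro r ⟨g, -, hg, rfl⟩
    calc |g x| = ‖g x‖ := (Real.norm_eq_abs _).symm
      _ ≤ ‖g‖ * ‖x‖ := g.le_opNorm x
      _ ≤ 1 * ‖x‖ := by gcongr
      _ = ‖x‖ := one_mul _
  · exact ⟨f, hfD, hf1, by rw [hfx, abs_norm]⟩

/-- `T` is a tree: the elements below any element form a chain -/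
def IsTree (T : Type) [SemilatticeInf T] : Prop := ∀ a b c : T, a ≤ c → b ≤ c → a ≤ b ∨ b ≤ a

/-- a nonempty set has two elements whose meet is a lower bound -/
theorem exists_meet (hT : IsTree T) {R : Set T} (hR : R.Nonempty) :
    ∃ a ∈ R, ∃ b ∈ R, ∀ r ∈ R, a ⊓ b ≤ r := by
  obtain ⟨r0, hr0⟩ := hR
  obtain ⟨m, ⟨a, ha, b, hb, hm⟩, hmin⟩ := WellFounded.has_min (wellFounded_lt (α := T))
    {m | ∃ a ∈ R, ∃ b ∈ R, m = a ⊓ b} ⟨r0 ⊓ r0, r0, hr0, r0, hr0, rfl⟩
  refine ⟨a, ha, b, hb, fun r hr => ?_⟩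
  have h1 : ¬ a ⊓ r < m := hmin _ ⟨a, ha, r, hr, rfl⟩
  rw [hm] at h1
  rcases hT (a ⊓ b) (a ⊓ r) a inf_le_left inf_le_left with h | h
  · exact h.trans inf_le_right
  · rcases h.lt_or_eq with h' | h'
    · exact absurd h' h1
    · rw [← h']; exact inf_le_right

/-- a countable set for every functional in `Dom T` -/
noncomputable def supp (f : L1 T →L[ℝ] ℝ) : Set T :=
  open Classical in if h : ∃ S : Set T, S.Countable ∧ Supp S f then h.choose else ∅

omit [WellFoundedLT T] in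
lemma supp_spec {f : L1 T →L[ℝ] ℝ} (hf : f ∈ Dom T) : (supp f).Countable ∧ Supp (supp f) f := by
  classical
  have h : ∃ S : Set T, S.Countable ∧ Supp S f := hf
  unfold supp
  rw [dif_pos h]
  exact h.choose_spec

/-- the meets of two elements of `supp f` -/
def meets (f : L1 T →L[ℝ] ℝ) : Set T := {m | ∃ a ∈ supp f, ∃ b ∈ supp f, m = a ⊓ b}

/-- the map of the projectional generator -/
noncomputable def Phi (f : L1 T →L[ℝ] ℝ) : Set (L1 T) := e '' meets f

omit [WellFoundedLT T] in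
lemma countable_Phi {f : L1 T →L[ℝ] ℝ} (hf : f ∈ Dom T) : (Phi f).Countable := by
  apply Countable.image
  have h := (supp_spec hf).1
  refine ((h.prod h).image (fun p : T × T => p.1 ⊓ p.2)).mono ?_
  rintro m ⟨a, ha, b, hb, rfl⟩
  exact ⟨(a, b), ⟨ha, hb⟩, rfl⟩

/-- `r = r_f(s)`: the largest element such that the elements of `supp f` above `s` are above `r` -/
lemma exists_root (hT : IsTree T) {f : L1 T →L[ℝ] ℝ} (hf : f ∈ Dom T) {s t : T} (hst : s ≤ t)
    (ht : f (e t) ≠ 0) :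
    ∃ r ∈ meets f, s ≤ r ∧ (∀ q ∈ supp f, s ≤ q → r ≤ q) ∧
      (∀ t', s ≤ t' → t' ≤ r → f (e t') = f (e s)) ∧ ∃ t', r ≤ t' ∧ f (e t') ≠ 0 := by
  obtain ⟨-, hS1, hS2⟩ := supp_spec hf
  obtain ⟨q, hq, htq⟩ : ∃ q ∈ supp f, t ≤ q := by
    by_contra hcon
    push Not at hcon
    exact ht (hS2 t hcon)
  obtain ⟨a, ha, b, hb, hab⟩ := exists_meet hT (R := {q ∈ supp f | s ≤ q}) ⟨q, hq, hst.trans htq⟩
  have hsr : s ≤ a ⊓ b := le_inf ha.2 hb.2
  have hconst : ∀ t', s ≤ t' → t' ≤ a ⊓ b → f (e t') = f (e s) := by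
    intro t' h1 h2
    refine hS1 t' s fun q hq => ⟨fun h => h1.trans h, fun h => h2.trans (hab q ⟨hq, h⟩)⟩
  refine ⟨a ⊓ b, ⟨a, ha.1, b, hb.1, rfl⟩, hsr, fun q hq h => hab q ⟨hq, h⟩, hconst, ?_⟩
  have hrq : a ⊓ b ≤ q := hab q ⟨hq, hst.trans htq⟩
  rcases hT t (a ⊓ b) q htq hrq with h | h
  · refine ⟨a ⊓ b, le_rfl, ?_⟩
    rw [hconst _ hsr le_rfl, ← hconst t hst h]
    exact ht
  · exact ⟨t, h, ht⟩

/-- **`(D, Phi)` is a projectional generator for every norming subspace `D` of `Dom T`.** -/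
theorem generator (hT : IsTree T) {D : Submodule ℝ (L1 T →L[ℝ] ℝ)} (hD : D ≤ Dom T)
    (hn : IsNorming D) : IsProjectionalGenerator D Phi := by
  refine ⟨hn, fun f hf => countable_Phi (hD hf), ?_⟩
  rintro A hA ⟨L, hL⟩ g hg hgA
  have hAD : ∀ f ∈ A, f ∈ Dom T := fun f hf => hD (hA hf)
  have hg0 : ∀ f ∈ A, ∀ m ∈ meets f, g (e m) = 0 := fun f hf m hm =>
    hgA f hf (e m) ⟨m, hm, rfl⟩
  refine ext_e fun s => ?_
  show g (e s) = 0
  by_cases hs : ∀ f ∈ A, ∀ t, s ≤ t → f (e t) = 0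
  · have : g (e s) = g 0 := eq_of_closure hg fun f hf => by rw [map_zero]; exact hs f hf s le_rfl
    rw [this, map_zero]
  push Not at hs
  -- the set of the roots
  obtain ⟨R, hR⟩ : ∃ R : Set T, R = {r | ∃ f ∈ A, r ∈ meets f ∧ s ≤ r ∧
    (∀ q ∈ supp f, s ≤ q → r ≤ q) ∧ (∀ t', s ≤ t' → t' ≤ r → f (e t') = f (e s)) ∧
      ∃ t', r ≤ t' ∧ f (e t') ≠ 0} := ⟨_, rfl⟩
  have hRne : R.Nonempty := by
    obtain ⟨f, hf, t, hst, ht⟩ := hs
    obtain ⟨r, hr⟩ := exists_root hT (hAD f hf) hst ht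
    rw [hR]
    exact ⟨r, f, hf, hr⟩
  obtain ⟨a, ha, b, hb, hab⟩ := exists_meet hT hRne
  have ha' := ha
  have hb' := hb
  rw [hR] at ha' hb'
  obtain ⟨f1, hf1, ha1, ha2, ha3, ha4, t1, hat1, ht1⟩ := ha'
  obtain ⟨f2, hf2, hb1, hb2, hb3, hb4, t2, hbt2, ht2⟩ := hb'
  have hsm : s ≤ a ⊓ b := le_inf ha2 hb2
  have hsame : g (e s) = g (e (a ⊓ b)) := by
    refine eq_of_closure hg fun h hh => ?_
    by_cases hz : ∀ t, s ≤ t → h (e t) = 0
    · rw [hz s le_rfl, hz _ hsm]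
    · push Not at hz
      obtain ⟨t, hst, ht⟩ := hz
      obtain ⟨r, hr1, hr2, hr3, hr4, hr5⟩ := exists_root hT (hAD h hh) hst ht
      have hrR : r ∈ R := by rw [hR]; exact ⟨h, hh, hr1, hr2, hr3, hr4, hr5⟩
      exact (hr4 _ hsm (hab r hrR)).symm
  rw [hsame]
  by_cases hc : a ≤ b ∨ b ≤ a
  · rcases hc with hc | hc
    · rw [inf_eq_left.2 hc]; exact hg0 f1 hf1 a ha1
    · rw [inf_eq_right.2 hc]; exact hg0 f2 hf2 b hb1
  push Not at hc
  obtain ⟨hc1, hc2⟩ := hc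
  have hz : ∀ (f : L1 T →L[ℝ] ℝ), f ∈ A → ∀ a b t : T, (∀ q ∈ supp f, s ≤ q → b ≤ q) → s ≤ a →
      a ≤ t → ¬ a ≤ b → ¬ b ≤ a → f (e t) = 0 := by
    intro f hf a b t h1 h2 h3 h4 h5
    apply (supp_spec (hAD f hf)).2.2
    intro q hq htq
    rcases hT a b q (h3.trans htq) (h1 q hq (h2.trans (h3.trans htq))) with h | h
    · exact h4 h
    · exact h5 h
  have z1 : f2 (e t1) = 0 := hz f2 hf2 a b t1 hb3 ha2 hat1 hc1 hc2
  have z2 : f1 (e t2) = 0 := hz f1 hf1 b a t2 ha3 hb2 hbt2 hc2 hc1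
  have hsum : f1 + f2 ∈ closure A := by
    rw [hL]
    have l1 : f1 ∈ (L : Set (L1 T →L[ℝ] ℝ)) := hL ▸ subset_closure hf1
    have l2 : f2 ∈ (L : Set (L1 T →L[ℝ] ℝ)) := hL ▸ subset_closure hf2
    exact L.add_mem l1 l2
  obtain ⟨f', hf', hdist⟩ := Metric.mem_closure_iff.1 hsum (min |f1 (e t1)| |f2 (e t2)|)
    (lt_min (abs_pos.2 ht1) (abs_pos.2 ht2))
  rw [dist_eq_norm] at hdist
  have y1 : f' (e t1) ≠ 0 := by
    intro h0
    have h1 := abs_apply_e_le (f1 + f2 - f') t1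
    have h2 : (f1 + f2 - f') (e t1) = f1 (e t1) := by
      show f1 (e t1) + f2 (e t1) - f' (e t1) = _
      rw [z1, h0]; ring
    rw [h2] at h1
    exact absurd (h1.trans_lt hdist) (not_lt.2 (min_le_left _ _))
  have y2 : f' (e t2) ≠ 0 := by
    intro h0
    have h1 := abs_apply_e_le (f1 + f2 - f') t2
    have h2 : (f1 + f2 - f') (e t2) = f2 (e t2) := by
      show f1 (e t2) + f2 (e t2) - f' (e t2) = _
      rw [z2, h0]; ring
    rw [h2] at h1
    exact absurd (h1.trans_lt hdist) (not_lt.2 (min_le_right _ _))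
  have hex : ∀ t, f' (e t) ≠ 0 → ∃ q ∈ supp f', t ≤ q := by
    intro t ht
    by_contra hcon
    push Not at hcon
    exact ht ((supp_spec (hAD f' hf')).2.2 t hcon)
  obtain ⟨q1, hq1, htq1⟩ := hex t1 y1
  obtain ⟨q2, hq2, htq2⟩ := hex t2 y2
  have haq : a ≤ q1 := hat1.trans htq1
  have hbq : b ≤ q2 := hbt2.trans htq2
  have hm : q1 ⊓ q2 = a ⊓ b := by
    apply le_antisymm
    · apply le_inf
      · rcases hT (q1 ⊓ q2) a q1 inf_le_left haq with h | h
        · exact h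
        · rcases hT a b q2 (h.trans inf_le_right) hbq with h' | h'
          · exact absurd h' hc1
          · exact absurd h' hc2
      · rcases hT (q1 ⊓ q2) b q2 inf_le_right hbq with h | h
        · exact h
        · rcases hT a b q1 haq (h.trans inf_le_left) with h' | h'
          · exact absurd h' hc1
          · exact absurd h' hc2
    · exact inf_le_inf haq hbq
  exact hg0 f' hf' _ ⟨q1, hq1, q2, hq2, hm.symm⟩

end Pool.Agent.T2H72.PG
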