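import Pool.Agent.T2H72.PG.Tree

/-! # The strengthened condition fails for every assignment of countable sets -/

set_option autoImplicit false

open Set Topology Filter

namespace Pool.Agent.T2H72.PG

open Classical in
/-- the functional of the indicator function of `A` -/
noncomputable def ind (A : Set Node) : L1 Node →L[ℝ] ℝ :=
  ofFun (fun p => if p ∈ A then 1 else 0) (fun p => by split_ifs <;> simp)

open Classical in
lemma ind_e (A : Set Node) (p : Node) : ind A (e p) = if p ∈ A then 1 else 0 := ofFun_e _ _ _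

open Classical in
lemma ind_apply (A : Set Node) (x : L1 Node) : ind A x = ∑' p, x p * (if p ∈ A then 1 else 0) := rfl

/-- the functional of the segment `(t|ν, t]` -/
noncomputable def seg (ν : W1) (t : W1 → ℝ) : L1 Node →L[ℝ] ℝ :=
  ind {p | p ≤ mk ⊤ t ∧ ¬ p ≤ mk (ν : WithTop W1) t}

lemma seg_mem (ν : W1) (t : W1 → ℝ) : seg ν t ∈ Dom Node := by
  refine ⟨{mk ⊤ t, mk (ν : WithTop W1) t}, (Set.countable_singleton _).insert _,
    fun s s' h => ?_, fun s h => ?_⟩
  · have h1 := h _ (mem_insert _ _)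
    have h2 := h _ (mem_insert_of_mem _ (mem_singleton _))
    unfold seg
    rw [ind_e, ind_e]
    congr 1
    apply propext
    constructor
    · rintro ⟨h3, h4⟩; exact ⟨h1.1 h3, fun h5 => h4 (h2.2 h5)⟩
    · rintro ⟨h3, h4⟩; exact ⟨h1.2 h3, fun h5 => h4 (h2.1 h5)⟩
  · unfold seg
    rw [ind_e, if_neg]
    rintro ⟨h1, -⟩
    exact h _ (mem_insert _ _) h1

lemma tendsto_ind {A : ℕ → Set Node} {B : Set Node} (h : ∀ p, ∀ᶠ n in atTop, (p ∈ A n ↔ p ∈ B))
    (x : L1 Node) : Tendsto (fun n => ind (A n) x) atTop (𝓝 (ind B x)) := by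
  classical
  simp only [ind_apply]
  refine tendsto_tsum_of_dominated_convergence (summable x) (fun p => ?_)
    (Eventually.of_forall fun n p => ?_)
  · refine tendsto_const_nhds.congr' ?_
    filter_upwards [h p] with n hn
    by_cases hp : p ∈ B
    · rw [if_pos hp, if_pos (hn.2 hp)]
    · rw [if_neg hp, if_neg fun h => hp (hn.1 h)]
  · rw [norm_mul, Real.norm_eq_abs]
    refine mul_le_of_le_one_right (abs_nonneg _) ?_
    split_ifs <;> simp

lemma ind_eq_zero {B : Set Node} {x : L1 Node} (h : ∀ p ∈ B, x p = 0) : ind B x = 0 := by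
  classical
  rw [ind_apply]
  have : (fun p => x p * (if p ∈ B then (1 : ℝ) else 0)) = fun _ => 0 := by
    funext p
    by_cases hp : p ∈ B
    · rw [h p hp, zero_mul]
    · rw [if_neg hp, mul_zero]
  rw [this, tsum_zero]

instance : Nonempty W1 := by
  by_contra h
  rw [not_nonempty_iff] at h
  exact W1_uncountable inferInstance

/-- closed points -/
lemma exists_closed (ρ : W1 → W1) : ∃ μ, (∃ ν, ν < μ) ∧ ∀ ν < μ, ρ ν < μ := by
  have h1 : ∀ a : W1, ∃ b, ∀ ν ≤ a, ρ ν < b := by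
    intro a
    obtain ⟨b, hb⟩ := W1_bounded ((W1_countable' a).image ρ)
    exact ⟨b, fun ν hν => hb _ ⟨ν, hν, rfl⟩⟩
  choose β hβ using h1
  obtain ⟨a0⟩ : Nonempty W1 := inferInstance
  have hne : {b | ∀ n : ℕ, β^[n] a0 < b}.Nonempty := by
    obtain ⟨b, hb⟩ := W1_bounded (countable_range fun n : ℕ => β^[n] a0)
    exact ⟨b, fun n => hb _ ⟨n, rfl⟩⟩
  obtain ⟨μ, hμ, hmin⟩ := WellFounded.has_min (wellFounded_lt (α := W1)) _ hne
  refine ⟨μ, ⟨a0, hμ 0⟩, fun ν hν => ?_⟩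
  have h2 : ¬ ∀ n : ℕ, β^[n] a0 < ν := fun h => hmin ν h hν
  push Not at h2
  obtain ⟨n, hn⟩ := h2
  refine (hβ _ ν hn).trans ?_
  have := hμ (n + 1)
  rwa [Function.iterate_succ_apply'] at this

/-- **The combinatorial core**: for every assignment of nonempty subsets of `ω_1` to the branches there are a
node `s|ξ` and `μ ≤ ξ` such that `μ` is in the sets of branches through infinitely many successors of `s|ξ`. -/
lemma core {Cl : (W1 → ℝ) → W1 → Prop} (hCl : ∀ t, ∃ μ, Cl t μ) :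
    ∃ (ξ : W1) (s : W1 → ℝ) (μ : W1), μ ≤ ξ ∧
      {α : ℝ | ∃ t : W1 → ℝ, (∀ η < ξ, t η = s η) ∧ t ξ = α ∧ Cl t μ}.Infinite := by
  classical
  by_contra hcon
  push Not at hcon
  have hb : ∀ (ξ : W1) (s : W1 → ℝ), ∃ α : ℝ, ¬ ∃ t : W1 → ℝ, (∀ η < ξ, t η = s η) ∧ t ξ = α ∧
      ∃ μ ≤ ξ, Cl t μ := by
    intro ξ s
    by_contra hall
    push Not at hall
    have hc : (⋃ μ ∈ Iic ξ, {α : ℝ | ∃ t : W1 → ℝ, (∀ η < ξ, t η = s η) ∧ t ξ = α ∧
        Cl t μ}).Countable :=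
      (W1_countable' ξ).biUnion fun μ hμ => (hcon ξ s μ hμ).countable
    have huniv : (univ : Set ℝ) ⊆ (⋃ μ ∈ Iic ξ, {α : ℝ | ∃ t : W1 → ℝ, (∀ η < ξ, t η = s η) ∧
        t ξ = α ∧ Cl t μ}) := by
      intro α _
      obtain ⟨t, h1, h2, μ, h3, h4⟩ := hall α
      exact mem_biUnion (show μ ∈ Iic ξ from h3) ⟨t, h1, h2, h4⟩
    exact Cardinal.not_countable_real (hc.mono huniv)
  choose pick hpick using hb
  obtain ⟨t, ht⟩ : ∃ t : W1 → ℝ, ∀ ξ, t ξ = pick ξ (fun η => if η < ξ then t η else 0) := by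
    refine ⟨(wellFounded_lt (α := W1)).fix
      (fun ξ prev => pick ξ (fun η => if h : η < ξ then prev η h else 0)), fun ξ => ?_⟩
    rw [WellFounded.fix_eq]
    congr 1
  obtain ⟨μ, hμ⟩ := hCl t
  refine hpick μ (fun η => if η < μ then t η else 0) ⟨t, fun η hη => ?_, ht μ, μ, le_rfl, hμ⟩
  rw [if_pos hη]

/-- a sequence below `μ` which is eventually above every element below `μ` -/
lemma exists_seq {μ : W1} (h : ∃ ν, ν < μ) :
    ∃ ν : ℕ → W1, (∀ n, ν n < μ) ∧ ∀ η < μ, ∀ᶠ n in atTop, η ≤ ν n := by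
  obtain ⟨f, hf⟩ := (W1_countable μ).exists_eq_range h
  have hfμ : ∀ n, f n < μ := by
    intro n
    have : f n ∈ Iio μ := by rw [hf]; exact ⟨n, rfl⟩
    exact this
  refine ⟨fun n => (Finset.range (n + 1)).sup' ⟨0, by simp⟩ f, fun n => ?_, fun η hη => ?_⟩
  · rw [Finset.sup'_lt_iff]
    exact fun i _ => hfμ i
  · have : η ∈ range f := by rw [← hf]; exact hη
    obtain ⟨k, rfl⟩ := this
    filter_upwards [eventually_ge_atTop k] with n hn
    exact Finset.le_sup' f (Finset.mem_range.2 (by omega))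

/-- **The failure of the strengthened condition.** -/
theorem failure (Φ : (L1 Node →L[ℝ] ℝ) → Set (L1 Node)) (hΦ : ∀ ν t, (Φ (seg ν t)).Countable) :
    ∃ (ν : ℕ → W1) (t : ℕ → W1 → ℝ) (G : L1 Node →L[ℝ] ℝ), G ≠ 0 ∧
      (∀ x, Tendsto (fun n => seg (ν n) (t n) x) atTop (𝓝 (G x))) ∧
      ∀ n, ∀ x ∈ Φ (seg (ν n) (t n)), G x = 0 := by
  classical
  -- the bounds of the lengths
  have hρ : ∀ (ν : W1) (t : W1 → ℝ), ∃ b : W1, ν < b ∧ ∀ x ∈ Φ (seg ν t), ∀ p : Node, x p ≠ 0 →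
      ∀ η : W1, p.lev = η → η < b := by
    intro ν t
    have hc : (insert ν (⋃ x ∈ Φ (seg ν t), (fun p : Node => p.lev.untopD ν) ''
        {p | x p ≠ 0})).Countable := by
      refine ((hΦ ν t).biUnion fun x _ => Countable.image ?_ _).insert ν
      exact ((summable x).of_abs).countable_support
    obtain ⟨b, hb⟩ := W1_bounded hc
    refine ⟨b, hb ν (mem_insert _ _), fun x hx p hp η hη => ?_⟩
    apply hb
    refine mem_insert_of_mem _ (mem_biUnion hx ⟨p, hp, ?_⟩)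
    show p.lev.untopD ν = η
    rw [hη]; rfl
  choose ρ hρ1 hρ2 using hρ
  have hne : ∀ t, ∃ μ, (∃ ν, ν < μ) ∧ ∀ ν < μ, ρ ν t < μ := fun t => exists_closed fun ν => ρ ν t
  obtain ⟨ξ, s, μ, hμξ, hinf⟩ := core hne
  obtain ⟨α, hα⟩ : ∃ α : ℕ → ℝ, Function.Injective α ∧ ∀ n, ∃ t : W1 → ℝ,
      (∀ η < ξ, t η = s η) ∧ t ξ = α n ∧ (∃ ν, ν < μ) ∧ ∀ ν < μ, ρ ν t < μ :=
    ⟨fun n => hinf.natEmbedding _ n, fun m n h => (hinf.natEmbedding _).injective (Subtype.ext h),
      fun n => (hinf.natEmbedding _ n).2⟩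
  obtain ⟨hinj, hα⟩ := hα
  choose t ht1 ht2 ht3 ht4 using hα
  obtain ⟨ν, hν1, hν2⟩ := exists_seq (ht3 0)
  refine ⟨ν, t, ind {p | p ≤ mk (ξ : WithTop W1) s ∧ (μ : WithTop W1) ≤ p.lev}, ?_, ?_, ?_⟩
  · intro h0
    have h1 := ind_e {p | p ≤ mk (ξ : WithTop W1) s ∧ (μ : WithTop W1) ≤ p.lev}
      (mk (ξ : WithTop W1) s)
    rw [h0, if_pos ⟨le_rfl, WithTop.coe_le_coe.2 hμξ⟩] at h1
    exact zero_ne_one h1
  · refine fun x => tendsto_ind (fun p => ?_) x
    by_cases hp : p ≤ mk (ξ : WithTop W1) s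
    · have hpt : ∀ n, p ≤ mk ⊤ (t n) := by
        intro n
        rw [le_mk] at hp ⊢
        refine ⟨le_top, fun i hi => ?_⟩
        rw [hp.2 i hi, ht1 n i]
        exact WithTop.coe_lt_coe.1 (hi.trans_le hp.1)
      by_cases hl : (μ : WithTop W1) ≤ p.lev
      · refine Eventually.of_forall fun n => ⟨fun _ => ⟨hp, hl⟩, fun _ => ⟨hpt n, fun h => ?_⟩⟩
        have h2 : p.lev ≤ (ν n : WithTop W1) := h.1
        exact absurd (WithTop.coe_le_coe.1 (hl.trans h2)) (not_le.2 (hν1 n))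
      · push Not at hl
        obtain ⟨η, hη⟩ := WithTop.ne_top_iff_exists.1 (hl.trans_le le_top).ne
        rw [← hη] at hl
        filter_upwards [hν2 η (WithTop.coe_lt_coe.1 hl)] with n hn
        refine ⟨fun h => absurd ?_ h.2, fun h => absurd h.2 (not_le.2 (hη ▸ hl))⟩
        rw [le_mk]
        refine ⟨?_, (le_mk.1 (hpt n)).2⟩
        rw [← hη]
        exact WithTop.coe_le_coe.2 hn
    · -- at most one of the branches passes through `p`
      have hone : ∀ m n, p ≤ mk ⊤ (t m) → p ≤ mk ⊤ (t n) → m = n := by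
        intro m n hm hn
        rw [le_mk] at hm hn
        apply hinj
        rw [← ht2 m, ← ht2 n]
        have hlt : (ξ : WithTop W1) < p.lev := by
          by_contra hle
          push Not at hle
          apply hp
          rw [le_mk]
          refine ⟨hle, fun i hi => ?_⟩
          rw [hm.2 i hi, ht1 m i]
          exact WithTop.coe_lt_coe.1 (hi.trans_le hle)
        rw [← hm.2 ξ hlt, ← hn.2 ξ hlt]
      by_cases hex : ∃ m, p ≤ mk ⊤ (t m)
      · obtain ⟨m, hm⟩ := hex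
        filter_upwards [eventually_gt_atTop m] with n hn
        refine ⟨fun h => absurd (hone m n hm h.1) hn.ne, fun h => absurd h.1 hp⟩
      · push Not at hex
        exact Eventually.of_forall fun n => ⟨fun h => absurd h.1 (hex n), fun h => absurd h.1 hp⟩
  · intro n x hx
    apply ind_eq_zero
    rintro p ⟨hp1, hp2⟩
    by_contra hne0
    have h1 : p.lev ≤ (ξ : WithTop W1) := hp1.1
    obtain ⟨η, hη⟩ := WithTop.ne_top_iff_exists.1 (h1.trans_lt (WithTop.coe_lt_top ξ)).ne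
    have h2 := hρ2 (ν n) (t n) x hx p hne0 η hη.symm
    have h3 := ht4 n (ν n) (hν1 n)
    rw [← hη] at hp2
    exact absurd (WithTop.coe_le_coe.1 hp2) (not_le.2 (h2.trans h3))

end Pool.Agent.T2H72.PG
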