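import Pool.Agent.T2H72.PG.Gen

/-! # The tree of the functions from the ordinals `≤ ω_1` to `ℝ` -/

set_option autoImplicit false

open Set Topology Filter

namespace Pool.Agent.T2H72.PG

/-- the well-ordered set of type `ω_1` -/
abbrev W1 : Type := (Cardinal.aleph 1).ord.ToType

lemma W1_countable (α : W1) : (Set.Iio α).Countable := by
  have h1 : Cardinal.mk (Set.Iio α) < Cardinal.aleph 1 := by
    have := Cardinal.mk_Iio_lt α (by simp)
    simpa using this
  rw [← Cardinal.le_aleph0_iff_set_countable]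
  have h2 : Cardinal.aleph 1 = Order.succ Cardinal.aleph0 := by
    simp
  exact Order.lt_succ_iff.1 (h1.trans_eq h2)

lemma W1_countable' (α : W1) : (Set.Iic α).Countable := by
  have h2 : Set.Iic α = insert α (Set.Iio α) := by
    ext a; simp [le_iff_eq_or_lt]
  rw [h2]
  exact (W1_countable α).insert α

lemma W1_uncountable : ¬ Countable W1 := by
  intro h
  have h1 := Cardinal.mk_le_aleph0_iff.2 h
  rw [Cardinal.mk_ord_toType] at h1
  exact absurd h1 (not_le.2 Cardinal.aleph0_lt_aleph_one)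

/-- countable subsets of `ω_1` are bounded -/
lemma W1_bounded {C : Set W1} (hC : C.Countable) : ∃ b, ∀ c ∈ C, c < b := by
  by_contra hcon
  push Not at hcon
  apply W1_uncountable
  have : (univ : Set W1) ⊆ ⋃ c ∈ C, Iic c := by
    intro b _
    obtain ⟨c, hc, hbc⟩ := hcon b
    exact mem_biUnion hc hbc
  exact countable_univ_iff.1 ((hC.biUnion fun c _ => W1_countable' c).mono this)

/-- The nodes: pairs of a length `≤ ω_1` and a function, which is `0` beyond the length. -/
@[ext] structure Node : Type where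
  /-- the length -/
  lev : WithTop W1
  /-- the function -/
  fn : W1 → ℝ
  prop : ∀ i : W1, lev ≤ i → fn i = 0

/-- the node of length `ξ` given by `w` -/
noncomputable def mk (ξ : WithTop W1) (w : W1 → ℝ) : Node :=
  ⟨ξ, open Classical in fun i => if (i : WithTop W1) < ξ then w i else 0, fun i hi => by
    simp only [not_lt.2 hi, if_false]⟩

lemma mk_lev (ξ : WithTop W1) (w : W1 → ℝ) : (mk ξ w).lev = ξ := rfl

lemma mk_fn (ξ : WithTop W1) (w : W1 → ℝ) {i : W1} (h : (i : WithTop W1) < ξ) :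
    (mk ξ w).fn i = w i := by
  unfold mk
  simp only [h, if_true]

/-- end-extension -/
noncomputable instance : PartialOrder Node where
  le a b := a.lev ≤ b.lev ∧ ∀ i : W1, (i : WithTop W1) < a.lev → a.fn i = b.fn i
  le_refl a := ⟨le_rfl, fun _ _ => rfl⟩
  le_trans a b c h1 h2 := ⟨h1.1.trans h2.1, fun i hi =>
    (h1.2 i hi).trans (h2.2 i (hi.trans_le h1.1))⟩
  le_antisymm a b h1 h2 := by
    have h3 : a.lev = b.lev := le_antisymm h1.1 h2.1
    apply Node.ext h3
    funext i
    by_cases hi : (i : WithTop W1) < a.lev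
    · exact h1.2 i hi
    · rw [a.prop i (not_lt.1 hi), b.prop i (h3 ▸ not_lt.1 hi)]

lemma le_def (a b : Node) :
    a ≤ b ↔ a.lev ≤ b.lev ∧ ∀ i : W1, (i : WithTop W1) < a.lev → a.fn i = b.fn i := Iff.rfl

lemma le_mk {a : Node} {ξ : WithTop W1} {w : W1 → ℝ} :
    a ≤ mk ξ w ↔ a.lev ≤ ξ ∧ ∀ i : W1, (i : WithTop W1) < a.lev → a.fn i = w i := by
  rw [le_def, mk_lev]
  constructor
  · rintro ⟨h1, h2⟩
    exact ⟨h1, fun i hi => by rw [h2 i hi, mk_fn _ _ (hi.trans_le h1)]⟩
  · rintro ⟨h1, h2⟩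
    exact ⟨h1, fun i hi => by rw [h2 i hi, mk_fn _ _ (hi.trans_le h1)]⟩

/-- the set of the possible lengths of the meet -/
def dset (a b : Node) : Set (WithTop W1) :=
  {x | x = min a.lev b.lev ∨ ∃ i : W1, x = i ∧ a.fn i ≠ b.fn i}

/-- the length of the meet -/
noncomputable def dd (a b : Node) : WithTop W1 :=
  WellFounded.min (wellFounded_lt (α := WithTop W1)) (dset a b) ⟨_, Or.inl rfl⟩

lemma dd_mem (a b : Node) : dd a b ∈ dset a b := WellFounded.min_mem _ _ _

lemma dd_le {a b : Node} {x : WithTop W1} (hx : x ∈ dset a b) : dd a b ≤ x :=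
  not_lt.1 (WellFounded.not_lt_min _ _ hx)

lemma dd_agree {a b : Node} {i : W1} (hi : (i : WithTop W1) < dd a b) : a.fn i = b.fn i := by
  by_contra h
  exact absurd (dd_le (Or.inr ⟨i, rfl, h⟩)) (not_le.2 hi)

noncomputable instance : SemilatticeInf Node where
  inf a b := mk (dd a b) a.fn
  inf_le_left a b := by
    refine ⟨(dd_le (Or.inl rfl)).trans (min_le_left _ _), fun i hi => ?_⟩
    exact mk_fn _ _ hi
  inf_le_right a b := by
    refine ⟨(dd_le (Or.inl rfl)).trans (min_le_right _ _), fun i hi => ?_⟩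
    exact (mk_fn _ _ hi).trans (dd_agree hi)
  le_inf a b c h1 h2 := by
    rw [le_mk]
    refine ⟨?_, h1.2⟩
    rcases dd_mem b c with h | ⟨i, h, hi⟩
    · rw [h]; exact le_min h1.1 h2.1
    · rw [h]
      by_contra hlt
      push Not at hlt
      exact hi ((h1.2 i hlt).symm.trans (h2.2 i hlt))

lemma lev_lt {a b : Node} (h : a < b) : a.lev < b.lev := by
  rcases h.le.1.lt_or_eq with h1 | h1
  · exact h1
  · exfalso
    apply h.ne
    apply le_antisymm h.le
    exact ⟨h1 ▸ le_rfl, fun i hi => (h.le.2 i (h1 ▸ hi)).symm⟩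

instance : WellFoundedLT Node :=
  ⟨Subrelation.wf (fun {_ _} h => lev_lt h)
    (InvImage.wf (fun a : Node => a.lev) (wellFounded_lt (α := WithTop W1)))⟩

lemma isTree : IsTree Node := by
  intro a b c hac hbc
  rcases le_total a.lev b.lev with h | h
  · left
    exact ⟨h, fun i hi => (hac.2 i hi).trans (hbc.2 i (hi.trans_le h)).symm⟩
  · right
    exact ⟨h, fun i hi => (hbc.2 i hi).trans (hac.2 i (hi.trans_le h)).symm⟩

end Pool.Agent.T2H72.PG
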